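import Pool.Agent.H.MP_96e181_an.rel.Random

/-!
# Relative Furstenberg theorem

Helper file for the problem MP_96e181_an: random closed sets over an arbitrary probability
preserving system, and the supports of equivariant families of measures.
-/

open MeasureTheory Filter Topology Set ProbabilityTheory

namespace Pool.Agent.H.MP_96e181_an.Rel

variable {Ω : Type*} [MeasurableSpace Ω] {μ : Measure Ω} {θ : Ω → Ω}

/-- an infinite closed subset of the circle has an accumulation point in it -/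
lemma exists_acc {C : Set UnitAddCircle} (hC : IsClosed C) (hinf : C.Infinite) :
    ∃ f ∈ C, f ∈ closure (C \ {f}) := by
  obtain ⟨f, hfC, hf⟩ := hinf.exists_accPt_of_subset_isCompact hC.isCompact subset_rfl
  refine ⟨f, hfC, ?_⟩
  rw [accPt_principal_iff_clusterPt] at hf
  exact mem_closure_iff_clusterPt.2 hf

/-- distance functions give an admissible family -/
lemma rcs_thickening {Z : Ω → Set UnitAddCircle} (hZ : ∀ ω, IsClosed (Z ω))
    (hm : ∀ V : Set UnitAddCircle, IsOpen V → MeasurableSet {ω | (Z ω ∩ V).Nonempty}) :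
    RCS Z (fun k => {z | z.2 ∈ Metric.thickening (1 / ((k : ℝ) + 1)) (Z z.1)}) where
  meas k := by
    obtain ⟨S, hSc, hSd⟩ := TopologicalSpace.exists_countable_dense UnitAddCircle
    have : {z : Ω × UnitAddCircle | z.2 ∈ Metric.thickening (1 / ((k : ℝ) + 1)) (Z z.1)} =
        ⋃ a ∈ S, ⋃ n : ℕ, (Prod.fst ⁻¹' {ω | (Z ω ∩ Metric.ball a (1 / ((n : ℝ) + 1))).Nonempty} ∩
          {z | dist z.2 a + 1 / ((n : ℝ) + 1) < 1 / ((k : ℝ) + 1)}) := by
      ext z
      simp only [mem_ofPred_eq, mem_iUnion, mem_inter_iff, mem_preimage, exists_prop,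
        Metric.mem_thickening_iff]
      constructor
      · rintro ⟨w, hw, hd⟩
        obtain ⟨n, hn⟩ := exists_nat_one_div_lt
          (show (0 : ℝ) < (1 / ((k : ℝ) + 1) - dist z.2 w) / 2 by linarith)
        obtain ⟨a, haS, ha⟩ := hSd.exists_dist_lt w (show (0 : ℝ) < 1 / ((n : ℝ) + 1) by positivity)
        refine ⟨a, haS, n, ⟨w, hw, ?_⟩, ?_⟩
        · rw [Metric.mem_ball]; exact ha
        · have := dist_triangle z.2 w a
          linarith
      · rintro ⟨a, _, n, ⟨w, hw, hwa⟩, h⟩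
        rw [Metric.mem_ball] at hwa
        refine ⟨w, hw, ?_⟩
        have := dist_triangle z.2 a w
        rw [dist_comm a w] at this
        linarith
    rw [this]
    refine MeasurableSet.biUnion hSc fun a _ => MeasurableSet.iUnion fun n => ?_
    refine (measurable_fst (hm _ Metric.isOpen_ball)).inter ?_
    exact measurableSet_lt ((measurable_snd.dist measurable_const).add_const _) measurable_const
  isOpen k x := Metric.isOpen_thickening (δ := 1 / ((k : ℝ) + 1)) (E := Z x)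
  anti := by
    intro i j hij z hz
    refine Metric.thickening_mono (one_div_le_one_div_of_le (by positivity) ?_) _ hz
    have : (i : ℝ) ≤ j := by exact_mod_cast hij
    linarith
  sub := fun x y k hy => Metric.self_subset_thickening (by positivity) _ hy
  lim := by
    intro x y y0 h hlim
    rw [← (hZ x).closure_eq, Metric.mem_closure_iff]
    intro ε hε
    have h1 : ∀ᶠ k in atTop, dist (y k) y0 < ε / 2 :=
      (tendsto_iff_dist_tendsto_zero.1 hlim).eventually_lt_const (by positivity)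
    have h2 : ∀ᶠ k : ℕ in atTop, 1 / ((k : ℝ) + 1) < ε / 2 :=
      tendsto_one_div_add_atTop_nhds_zero_nat.eventually_lt_const (by positivity)
    obtain ⟨k, hk1, hk2⟩ := (h1.and h2).exists
    obtain ⟨w, hw, hd⟩ := Metric.mem_thickening_iff.1 (h k)
    refine ⟨w, hw, ?_⟩
    have h3 : dist (y k) w < 1 / ((k : ℝ) + 1) := hd
    have h4 := dist_triangle y0 (y k) w
    rw [dist_comm y0 (y k)] at h4
    linarith

/-- **Relative Furstenberg theorem for closed sets.** -/
theorem relative_furstenberg [IsFiniteMeasure μ] (hθ : MeasurePreserving θ μ μ) {p q : ℕ}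
    (hp : 2 ≤ p) (hq : 2 ≤ q) (h : Irrational (Real.log p / Real.log q))
    {Z : Ω → Set UnitAddCircle} (hZ : ∀ ω, IsClosed (Z ω))
    (hm : ∀ V : Set UnitAddCircle, IsOpen V → MeasurableSet {ω | (Z ω ∩ V).Nonempty})
    (hQ : ∀ᵐ ω ∂μ, ∀ y ∈ Z ω, q • y ∈ Z ω) (hP : ∀ᵐ ω ∂μ, ∀ y ∈ Z ω, p • y ∈ Z (θ ω)) :
    ∀ᵐ ω ∂μ, Z ω = univ ∨ ((Z ω).Finite ∧ ∀ y ∈ Z ω, ∃ n : ℕ, 0 < n ∧ n • y = 0) := by
  obtain ⟨A, hA, hAm, hAs⟩ := (hQ.and hP).exists_measurable_mem
  set A' : Set Ω := {ω | ∀ n : ℕ, θ^[n] ω ∈ A} with hA'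
  have hA'm : MeasurableSet A' := by
    have : A' = ⋂ n : ℕ, (θ^[n]) ⁻¹' A := by ext ω; simp [hA']
    rw [this]
    exact MeasurableSet.iInter fun n => (hθ.iterate n).measurable hAm
  have hA'ae : ∀ᵐ ω ∂μ, ω ∈ A' := by
    have : ∀ᵐ ω ∂μ, ∀ n : ℕ, θ^[n] ω ∈ A :=
      ae_all_iff.2 fun n => (hθ.iterate n).quasiMeasurePreserving.ae hA
    exact this
  have hA'θ : ∀ ω ∈ A', θ ω ∈ A' := by
    intro ω hω n
    have := hω (n + 1)
    rwa [Function.iterate_succ_apply] at this
  have hA'A : ∀ ω ∈ A', ω ∈ A := fun ω hω => hω 0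
  set Z' : Ω → Set UnitAddCircle := fun ω => {y | ω ∈ A' ∧ y ∈ Z ω} with hZ'
  have hZ'eq : ∀ ω ∈ A', Z' ω = Z ω := by
    intro ω hω; ext y; simp [hZ', hω]
  have hZ'emp : ∀ ω, ω ∉ A' → Z' ω = ∅ := by
    intro ω hω; ext y; simp [hZ', hω]
  have hZ'c : ∀ ω, IsClosed (Z' ω) := by
    intro ω
    by_cases hω : ω ∈ A'
    · rw [hZ'eq ω hω]; exact hZ ω
    · rw [hZ'emp ω hω]; exact isClosed_empty
  have hm' : ∀ V : Set UnitAddCircle, IsOpen V → MeasurableSet {ω | (Z' ω ∩ V).Nonempty} := by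
    intro V hV
    have : {ω | (Z' ω ∩ V).Nonempty} = A' ∩ {ω | (Z ω ∩ V).Nonempty} := by
      ext ω
      by_cases hω : ω ∈ A'
      · simp only [mem_ofPred_eq, mem_inter_iff, hZ'eq ω hω, hω, true_and]
      · simp only [mem_ofPred_eq, mem_inter_iff, hZ'emp ω hω, hω, false_and, empty_inter,
          Set.not_nonempty_empty]
    rw [this]
    exact hA'm.inter (hm V hV)
  have hQ' : ∀ ω, ∀ y ∈ Z' ω, q • y ∈ Z' ω := by
    rintro ω y ⟨hω, hy⟩
    exact ⟨hω, (hAs ω (hA'A ω hω)).1 y hy⟩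
  have hP' : ∀ ω, ∀ y ∈ Z' ω, p • y ∈ Z' (θ ω) := by
    rintro ω y ⟨hω, hy⟩
    exact ⟨hA'θ ω hω, (hAs ω (hA'A ω hω)).2 y hy⟩
  have hR := rcs_thickening hZ'c hm'
  have hcount : {r : UnitAddCircle | ∃ b : ℕ, 0 < b ∧ b • r = 0}.Countable := by
    have : {r : UnitAddCircle | ∃ b : ℕ, 0 < b ∧ b • r = 0} =
        ⋃ b : ℕ, ⋃ _ : 0 < b, {r : UnitAddCircle | b • r = 0} := by
      ext r; simp
    rw [this]
    exact countable_iUnion fun b => countable_iUnion fun hb =>
      (AddCircle.finite_torsion 1 hb).countable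
  have h1 : ∀ᵐ ω ∂μ, ∀ r ∈ {r : UnitAddCircle | ∃ b : ℕ, 0 < b ∧ b • r = 0},
      r ∈ closure (Z' ω \ {r}) → Z' ω = univ := by
    rw [ae_ball_iff hcount]
    rintro r ⟨b, hb, hr⟩
    exact rf_torsion hR hp hq h hθ hQ' hP' hb hr
  have h2 := random_furstenberg hR hp hq h hθ hQ' hP'
  filter_upwards [h1, h2, hA'ae] with ω hω1 hω2 hωA
  rw [← hZ'eq ω hωA]
  by_cases hu : Z' ω = univ
  · exact Or.inl hu
  · right
    have htor : ∀ y ∈ Z' ω, ∃ n : ℕ, 0 < n ∧ n • y = 0 := by
      intro y hy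
      by_contra hcon
      push Not at hcon
      exact hu (hω2 ⟨y, hy, hcon⟩)
    refine ⟨?_, htor⟩
    by_contra hinf
    obtain ⟨f, hf, hacc⟩ := exists_acc (hZ'c ω) hinf
    exact hu (hω1 f (htor f hf) hacc)

lemma support_map {ν : Measure UnitAddCircle} {n : ℕ} {y : UnitAddCircle} (hy : y ∈ ν.support) :
    n • y ∈ (ν.map (fun x : UnitAddCircle => n • x)).support := by
  rw [Measure.mem_support_iff_forall] at hy ⊢
  intro V hV
  have hc : Continuous fun x : UnitAddCircle => n • x := continuous_const_smul n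
  obtain ⟨W, hWV, hWo, hyW⟩ := mem_nhds_iff.1 hV
  refine lt_of_lt_of_le ?_ (measure_mono hWV)
  rw [Measure.map_apply hc.measurable hWo.measurableSet]
  exact hy _ ((hWo.preimage hc).mem_nhds hyW)

lemma support_inter_iff {ν : Measure UnitAddCircle} {V : Set UnitAddCircle} (hV : IsOpen V) :
    (ν.support ∩ V).Nonempty ↔ 0 < ν V := by
  constructor
  · rintro ⟨y, hy, hyV⟩
    rw [Measure.mem_support_iff_forall] at hy
    exact hy _ (hV.mem_nhds hyV)
  · intro hpos
    by_contra hne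
    rw [Set.not_nonempty_iff_eq_empty] at hne
    have hsub : V ⊆ ν.supportᶜ := by
      intro y hy hys
      have : y ∈ ν.support ∩ V := ⟨hys, hy⟩
      rw [hne] at this
      exact this
    have := measure_mono_null hsub (Measure.measure_compl_support (μ := ν))
    exact hpos.ne' this

/-- **Relative Furstenberg theorem for measures.** -/
theorem relative_support [IsFiniteMeasure μ] (hθ : MeasurePreserving θ μ μ) {p q : ℕ}
    (hp : 2 ≤ p) (hq : 2 ≤ q) (h : Irrational (Real.log p / Real.log q))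
    (κ : Kernel Ω UnitAddCircle)
    (hQ : ∀ᵐ ω ∂μ, (κ ω).map (fun x : UnitAddCircle => q • x) = κ ω)
    (hP : ∀ᵐ ω ∂μ, (κ ω).map (fun x : UnitAddCircle => p • x) = κ (θ ω)) :
    ∀ᵐ ω ∂μ, (∀ V : Set UnitAddCircle, IsOpen V → V.Nonempty → 0 < κ ω V) ∨
      ∃ F : Set UnitAddCircle, F.Finite ∧ (∀ y ∈ F, ∃ n : ℕ, 0 < n ∧ n • y = 0) ∧
        κ ω Fᶜ = 0 := by
  have hrf := relative_furstenberg (μ := μ) hθ hp hq h (Z := fun ω => (κ ω).support)
    (fun ω => Measure.isClosed_support) ?_ ?_ ?_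
  · filter_upwards [hrf] with ω hω
    rcases hω with hω | ⟨hfin, htor⟩
    · left
      intro V hV hne
      rw [← support_inter_iff hV]
      have : (κ ω).support = univ := hω
      rw [this, univ_inter]
      exact hne
    · right
      exact ⟨_, hfin, htor, Measure.measure_compl_support⟩
  · intro V hV
    have : {ω | ((κ ω).support ∩ V).Nonempty} = {ω | 0 < κ ω V} := by
      ext ω
      exact support_inter_iff hV
    rw [this]
    exact measurableSet_lt measurable_const (κ.measurable_coe hV.measurableSet)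
  · filter_upwards [hQ] with ω hω y hy
    have := support_map (n := q) hy
    rwa [hω] at this
  · filter_upwards [hP] with ω hω y hy
    have := support_map (n := p) hy
    rwa [hω] at this

end Pool.Agent.H.MP_96e181_an.Rel
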