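import Pool.Agent.H.MP_96e181_an.Phase

/-!
# Stationary random closed subsets of the circle over an arbitrary base

Helper file for the problem MP_96e181_an: the phase lemma of `Phase.lean` for random closed sets
over an arbitrary measure preserving system.
-/

open MeasureTheory Filter Topology Set

namespace Pool.Agent.H.MP_96e181_an.Rel

variable {Ω : Type*} [MeasurableSpace Ω]

/-- A family of closed subsets `Z x` of the circle, together with decreasing approximations `U k`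
of its graph, which are measurable and have open sections. -/
structure RCS (Z : Ω → Set UnitAddCircle) (U : ℕ → Set (Ω × UnitAddCircle)) : Prop where
  meas : ∀ k, MeasurableSet (U k)
  isOpen : ∀ k x, IsOpen {y | (x, y) ∈ U k}
  anti : Antitone U
  sub : ∀ x y k, y ∈ Z x → (x, y) ∈ U k
  lim : ∀ (x : Ω) (y : ℕ → UnitAddCircle) (y0 : UnitAddCircle),
    (∀ k, (x, y k) ∈ U k) → Tendsto y atTop (𝓝 y0) → y0 ∈ Z x

variable {Z : Ω → Set UnitAddCircle} {U : ℕ → Set (Ω × UnitAddCircle)}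

lemma RCS.lim_subseq (hR : RCS Z U) {x : Ω} {y : ℕ → UnitAddCircle}
    {y0 : UnitAddCircle} (hy : ∀ k, (x, y k) ∈ U k) {φ : ℕ → ℕ} (hφ : StrictMono φ)
    (h : Tendsto (y ∘ φ) atTop (𝓝 y0)) : y0 ∈ Z x :=
  hR.lim x (y ∘ φ) y0 (fun k => hR.anti (hφ.id_le k) (hy (φ k))) h

lemma RCS.isClosed (hR : RCS Z U) (x : Ω) : IsClosed (Z x) := by
  rw [← closure_subset_iff_isClosed]
  intro y hy
  obtain ⟨u, hu, hlim⟩ := mem_closure_iff_seq_limit.1 hy
  exact hR.lim x u y (fun k => hR.sub x _ k (hu k)) hlim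

/-- The event, as a set of pairs `(x, c)`, that `c • K` meets the set of scales of `Z x`. -/
def E (U : ℕ → Set (Ω × UnitAddCircle)) (Q : ℕ) (K : Set ℝ) : Set (Ω × ℝ) :=
  {z | ∀ m k : ℕ, ∃ s ∈ K, (z.1, ((z.2 * s / (Q : ℝ) ^ m : ℝ) : UnitAddCircle)) ∈ U k}

lemma measurableSet_E (hR : RCS Z U) (Q : ℕ) (K : Set ℝ) : MeasurableSet (E U Q K) := by
  obtain ⟨D, hDK, hDc, hKD⟩ :=
    (TopologicalSpace.IsSeparable.of_separableSpace K).exists_countable_dense_subset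
  have : E U Q K = ⋂ m : ℕ, ⋂ k : ℕ, ⋃ s ∈ D,
      (fun z : Ω × ℝ =>
        (z.1, ((z.2 * s / (Q : ℝ) ^ m : ℝ) : UnitAddCircle))) ⁻¹' (U k) := by
    ext z
    simp only [E, mem_ofPred_eq, mem_iInter, mem_iUnion, mem_preimage, exists_prop]
    refine forall_congr' fun m => forall_congr' fun k => ⟨?_, ?_⟩
    · rintro ⟨s, hsK, hs⟩
      have hcont : Continuous fun r : ℝ => ((z.2 * r / (Q : ℝ) ^ m : ℝ) : UnitAddCircle) :=
        (AddCircle.continuous_mk' 1).comp (by fun_prop)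
      have hopen : IsOpen {r : ℝ | (z.1, ((z.2 * r / (Q : ℝ) ^ m : ℝ) : UnitAddCircle)) ∈ U k} :=
        (hR.isOpen k z.1).preimage hcont
      obtain ⟨r, hr1, hr2⟩ := mem_closure_iff.1 (hKD hsK) _ hopen hs
      exact ⟨r, hr2, hr1⟩
    · rintro ⟨s, hsD, hs⟩
      exact ⟨s, hDK hsD, hs⟩
  rw [this]
  refine MeasurableSet.iInter fun m => MeasurableSet.iInter fun k =>
    MeasurableSet.biUnion hDc fun s _ => ?_
  refine (Measurable.prodMk measurable_fst ?_) (hR.meas k)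
  have hcont : Continuous fun r : ℝ => ((r * s / (Q : ℝ) ^ m : ℝ) : UnitAddCircle) :=
    (AddCircle.continuous_mk' 1).comp (by fun_prop)
  exact hcont.measurable.comp measurable_snd

lemma mem_E_iff (hR : RCS Z U) {Q : ℕ} (hQ0 : 0 < Q)
    (hQ : ∀ x, ∀ y ∈ Z x, Q • y ∈ Z x) {K : Set ℝ} (hK : IsCompact K)
    (x : Ω) (c : ℝ) :
    (x, c) ∈ E U Q K ↔
      ∃ s ∈ K, ∀ m : ℕ, ((c * s / (Q : ℝ) ^ m : ℝ) : UnitAddCircle) ∈ Z x := by
  have hQr : (0 : ℝ) < Q := by exact_mod_cast hQ0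
  constructor
  · intro h
    have step1 : ∀ m : ℕ, ∃ s ∈ K, ((c * s / (Q : ℝ) ^ m : ℝ) : UnitAddCircle) ∈ Z x := by
      intro m
      choose s hsK hsU using h m
      obtain ⟨a, haK, φ, hφ, hlim⟩ := hK.tendsto_subseq hsK
      refine ⟨a, haK, ?_⟩
      refine hR.lim_subseq (x := x)
        (y := fun k => ((c * s k / (Q : ℝ) ^ m : ℝ) : UnitAddCircle)) hsU hφ ?_
      have hcont : Continuous fun r : ℝ => ((c * r / (Q : ℝ) ^ m : ℝ) : UnitAddCircle) :=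
        (AddCircle.continuous_mk' 1).comp (by fun_prop)
      exact (hcont.tendsto a).comp hlim
    choose s hsK hs using step1
    have hs' : ∀ m m' : ℕ, m' ≤ m →
        ((c * s m / (Q : ℝ) ^ m' : ℝ) : UnitAddCircle) ∈ Z x := by
      intro m m' hm
      have := pow_smul_mem (hQ x) (m - m') _ (hs m)
      rw [← coe_pow_mul] at this
      convert this using 2
      have e : (Q : ℝ) ^ m = (Q : ℝ) ^ (m - m') * (Q : ℝ) ^ m' := by
        rw [← pow_add, Nat.sub_add_cancel hm]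
      rw [e]
      field_simp
    obtain ⟨a, haK, φ, hφ, hlim⟩ := hK.tendsto_subseq hsK
    refine ⟨a, haK, fun m => ?_⟩
    have hcont : Continuous fun r : ℝ => ((c * r / (Q : ℝ) ^ m : ℝ) : UnitAddCircle) :=
      (AddCircle.continuous_mk' 1).comp (by fun_prop)
    refine (hR.isClosed x).mem_of_tendsto ((hcont.tendsto a).comp hlim) ?_
    filter_upwards [eventually_ge_atTop m] with k hk
    exact hs' (φ k) m (hk.trans (hφ.id_le k))
  · rintro ⟨s, hsK, hs⟩ m k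
    exact ⟨s, hsK, hR.sub _ _ _ (hs m)⟩

lemma E_P (hR : RCS Z U) {Q P : ℕ} (hQ0 : 0 < Q) {θ : Ω → Ω}
    (hQ : ∀ x, ∀ y ∈ Z x, Q • y ∈ Z x) (hP : ∀ x, ∀ y ∈ Z x, P • y ∈ Z (θ x))
    {K : Set ℝ} (hK : IsCompact K) {x : Ω} {c : ℝ} (h : (x, c) ∈ E U Q K) :
    (θ x, (P : ℝ) * c) ∈ E U Q K := by
  rw [mem_E_iff hR hQ0 hQ hK] at h ⊢
  obtain ⟨s, hsK, hs⟩ := h
  refine ⟨s, hsK, fun m => ?_⟩
  have := hP x _ (hs m)
  rw [← coe_nat_mul] at this
  convert this using 2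
  ring

lemma E_Q (hR : RCS Z U) {Q : ℕ} (hQ0 : 0 < Q)
    (hQ : ∀ x, ∀ y ∈ Z x, Q • y ∈ Z x)
    {K : Set ℝ} (hK : IsCompact K) (x : Ω) (c : ℝ) :
    (x, (Q : ℝ) * c) ∈ E U Q K ↔ (x, c) ∈ E U Q K := by
  have hQr : (0 : ℝ) < Q := by exact_mod_cast hQ0
  rw [mem_E_iff hR hQ0 hQ hK, mem_E_iff hR hQ0 hQ hK]
  constructor
  · rintro ⟨s, hsK, hs⟩
    refine ⟨s, hsK, fun m => ?_⟩
    have := hs (m + 1)
    convert this using 2
    rw [pow_succ]
    field_simp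
  · rintro ⟨s, hsK, hs⟩
    refine ⟨s, hsK, fun m => ?_⟩
    rcases m with _ | m
    · have := hQ x _ (hs 0)
      rw [← coe_nat_mul] at this
      convert this using 2
      ring
    · have := hs m
      convert this using 2
      rw [pow_succ]
      field_simp

lemma E_Qz (hR : RCS Z U) {Q : ℕ} (hQ0 : 0 < Q)
    (hQ : ∀ x, ∀ y ∈ Z x, Q • y ∈ Z x)
    {K : Set ℝ} (hK : IsCompact K) (x : Ω) (m : ℤ) : ∀ (c : ℝ),
    (x, (Q : ℝ) ^ m * c) ∈ E U Q K ↔ (x, c) ∈ E U Q K := by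
  have hQr : (Q : ℝ) ≠ 0 := by positivity
  induction m using Int.induction_on with
  | zero => intro c; simp
  | succ i ih =>
    intro c
    have := ih ((Q : ℝ) * c)
    rw [E_Q hR hQ0 hQ hK] at this
    rw [zpow_add₀ hQr, zpow_one, mul_assoc]
    exact this
  | pred i ih =>
    intro c
    have := ih ((Q : ℝ)⁻¹ * c)
    rw [← E_Q hR hQ0 hQ hK x ((Q : ℝ)⁻¹ * c), mul_inv_cancel_left₀ hQr] at this
    rw [← this, zpow_sub₀ hQr, zpow_one, div_eq_mul_inv, mul_assoc]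

variable {μ : Measure Ω}

/-- measurability of sections -/
lemma measurableSet_sec (hR : RCS Z U) (Q : ℕ) (K : Set ℝ) (c : ℝ) :
    MeasurableSet {x | (x, c) ∈ E U Q K} :=
  measurable_prodMk_right (measurableSet_E hR Q K)

lemma g_P (hR : RCS Z U) {Q P : ℕ} (hQ0 : 0 < Q) {θ : Ω → Ω}
    (hQ : ∀ x, ∀ y ∈ Z x, Q • y ∈ Z x) (hP : ∀ x, ∀ y ∈ Z x, P • y ∈ Z (θ x))
    (hμ : MeasurePreserving θ μ μ)
    {K : Set ℝ} (hK : IsCompact K) (n : ℕ) (c : ℝ) :
    μ {x | (x, c) ∈ E U Q K} ≤ μ {x | (x, (P : ℝ) ^ n * c) ∈ E U Q K} := by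
  induction n with
  | zero => simp
  | succ n ih =>
    refine ih.trans ?_
    calc μ {x | (x, (P : ℝ) ^ n * c) ∈ E U Q K}
        ≤ μ (θ ⁻¹' {x | (x, (P : ℝ) ^ (n + 1) * c) ∈ E U Q K}) := by
          refine measure_mono fun x hx => ?_
          have := E_P hR hQ0 hQ hP hK hx
          rw [← mul_assoc, ← pow_succ'] at this
          exact this
      _ = μ {x | (x, (P : ℝ) ^ (n + 1) * c) ∈ E U Q K} :=
          hμ.measure_preimage (measurableSet_sec hR Q K _).nullMeasurableSet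

lemma g_usc (hR : RCS Z U) {Q : ℕ} (hQ0 : 0 < Q)
    (hQ : ∀ x, ∀ y ∈ Z x, Q • y ∈ Z x) [IsFiniteMeasure μ]
    {K : Set ℝ} (hK : IsCompact K) {c : ℕ → ℝ} {c' : ℝ} (hc : Tendsto c atTop (𝓝 c'))
    {δ : ENNReal} (hδ : ∀ j, δ ≤ μ {x | (x, c j) ∈ E U Q K}) :
    δ ≤ μ {x | (x, c') ∈ E U Q K} := by
  set A : ℕ → Set Ω := fun j => {x | (x, c j) ∈ E U Q K} with hA
  set B : ℕ → Set Ω := fun N => ⋃ j ≥ N, A j with hB
  have hBanti : Antitone B := by
    intro N M hNM x hx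
    simp only [hB, mem_iUnion] at hx ⊢
    obtain ⟨j, hj, hx⟩ := hx
    exact ⟨j, hNM.trans hj, hx⟩
  have hBm : ∀ N, MeasurableSet (B N) := fun N =>
    MeasurableSet.iUnion fun j => MeasurableSet.iUnion fun _ => measurableSet_sec hR Q K _
  have hlim := tendsto_measure_iInter_atTop (μ := μ) (fun N => (hBm N).nullMeasurableSet) hBanti
    ⟨0, measure_ne_top _ _⟩
  have h1 : δ ≤ μ (⋂ N, B N) := by
    refine ge_of_tendsto' hlim fun N => ?_
    refine (hδ N).trans (measure_mono ?_)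
    exact subset_biUnion_of_mem (u := fun j => A j) (show N ≥ N from le_rfl)
  refine h1.trans (measure_mono fun x hx => ?_)
  -- compactness
  have hfreq : ∀ N, ∃ j, N ≤ j ∧ x ∈ A j := by
    intro N
    have := mem_iInter.1 hx N
    simp only [hB, mem_iUnion] at this
    obtain ⟨j, hj, hxj⟩ := this
    exact ⟨j, hj, hxj⟩
  choose j hj hxj using hfreq
  have hcj : Tendsto (fun N => c (j N)) atTop (𝓝 c') :=
    hc.comp (tendsto_atTop_mono hj tendsto_id)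
  have hex : ∀ N, ∃ s ∈ K, ∀ m : ℕ,
      ((c (j N) * s / (Q : ℝ) ^ m : ℝ) : UnitAddCircle) ∈ Z x :=
    fun N => (mem_E_iff hR hQ0 hQ hK x _).1 (hxj N)
  choose s hsK hs using hex
  obtain ⟨a, haK, φ, hφ, hlim'⟩ := hK.tendsto_subseq hsK
  show (x, c') ∈ E U Q K
  rw [mem_E_iff hR hQ0 hQ hK]
  refine ⟨a, haK, fun m => ?_⟩
  have hcont : Continuous fun r : ℝ => ((r / (Q : ℝ) ^ m : ℝ) : UnitAddCircle) :=
    (AddCircle.continuous_mk' 1).comp (by fun_prop)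
  have hprod : Tendsto (fun N => c (j (φ N)) * s (φ N)) atTop (𝓝 (c' * a)) :=
    (hcj.comp hφ.tendsto_atTop).mul hlim'
  exact (hR.isClosed x).mem_of_tendsto ((hcont.tendsto _).comp hprod)
    (Eventually.of_forall fun N => hs (φ N) m)

lemma g_const (hR : RCS Z U) {Q P : ℕ} (hP2 : 2 ≤ P) (hQ2 : 2 ≤ Q)
    (hirr : Irrational (Real.log P / Real.log Q)) {θ : Ω → Ω}
    (hQ : ∀ x, ∀ y ∈ Z x, Q • y ∈ Z x) (hP : ∀ x, ∀ y ∈ Z x, P • y ∈ Z (θ x))
    [IsFiniteMeasure μ]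
    (hμ : MeasurePreserving θ μ μ)
    {K : Set ℝ} (hK : IsCompact K) {c c' : ℝ} (hc : 0 < c) (hc' : 0 < c') :
    μ {x | (x, c) ∈ E U Q K} ≤ μ {x | (x, c') ∈ E U Q K} := by
  have hQ0 : 0 < Q := by omega
  obtain ⟨n, m, hnm⟩ := exists_seq hP2 hQ2 hirr hc hc'
  refine g_usc hR hQ0 hQ hK hnm fun j => ?_
  refine le_trans (le_of_eq ?_) (g_P hR hQ0 hQ hP hμ hK (n j) ((Q : ℝ) ^ (m j) * c))
  congr 1
  ext x
  exact (E_Qz hR hQ0 hQ hK x (m j) c).symm

lemma E_mono (U : ℕ → Set (Ω × UnitAddCircle)) (Q : ℕ) {K K' : Set ℝ}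
    (h : K ⊆ K') : E U Q K ⊆ E U Q K' := by
  intro z hz m k
  obtain ⟨s, hs, hsU⟩ := hz m k
  exact ⟨s, h hs, hsU⟩

/-- any nonzero scale can be moved to the fundamental annulus -/
lemma mem_Ann_of (hR : RCS Z U) {Q : ℕ} (hQ2 : 2 ≤ Q)
    (hQ : ∀ x, ∀ y ∈ Z x, Q • y ∈ Z x) {x : Ω} {s : ℝ} (hs0 : s ≠ 0)
    (hs : ∀ m : ℕ, ((s / (Q : ℝ) ^ m : ℝ) : UnitAddCircle) ∈ Z x) :
    (x, (1 : ℝ)) ∈ E U Q (Ann Q) := by
  have hQ0 : 0 < Q := by omega
  have hQ1 : (1 : ℝ) < Q := by exact_mod_cast (by omega : 1 < Q)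
  have hQr : (0 : ℝ) < Q := by positivity
  obtain ⟨n, hn1, hn2⟩ := exists_mem_Ioc_zpow (x := 2 * |s|) (by positivity) hQ1
  have h1 : (x, (1 : ℝ)) ∈ E U Q {s} := by
    rw [mem_E_iff hR hQ0 hQ isCompact_singleton]
    exact ⟨s, rfl, fun m => by simpa using hs m⟩
  rw [← E_Qz hR hQ0 hQ isCompact_singleton x (-(n + 1)),
    mem_E_iff hR hQ0 hQ isCompact_singleton] at h1
  obtain ⟨s', hs', h1⟩ := h1
  rw [mem_singleton_iff] at hs'
  subst hs'
  rw [mem_E_iff hR hQ0 hQ (isCompact_Ann Q)]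
  have hpos : (0 : ℝ) < (Q : ℝ) ^ (-(n + 1) : ℤ) := by positivity
  refine ⟨(Q : ℝ) ^ (-(n + 1)) * s', ⟨?_, ?_⟩, fun m => ?_⟩
  · rw [abs_mul, abs_of_pos hpos, zpow_neg, zpow_add₀ hQr.ne', zpow_one, mul_inv]
    have h2 : (0 : ℝ) < (Q : ℝ) ^ n := by positivity
    rw [div_le_iff₀ (by positivity)]
    field_simp
    linarith
  · rw [abs_mul, abs_of_pos hpos, zpow_neg, ← div_eq_inv_mul, div_le_iff₀ (by positivity)]
    linarith
  · have := h1 m
    convert this using 2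
    ring

lemma acc_mem_G (hR : RCS Z U) {Q : ℕ} (hQ2 : 2 ≤ Q)
    (hQ : ∀ x, ∀ y ∈ Z x, Q • y ∈ Z x) {x : Ω}
    (hx : (0 : UnitAddCircle) ∈ closure (Z x \ {0})) : (x, (1 : ℝ)) ∈ E U Q (Ann Q) := by
  have hQ1 : (1 : ℝ) < Q := by exact_mod_cast (by omega : 1 < Q)
  have hQr : (0 : ℝ) < Q := by positivity
  intro m k
  obtain ⟨d, ⟨hdZ, hd0⟩, hd⟩ := Metric.mem_closure_iff.1 hx (1 / (2 * (Q : ℝ) ^ m))
    (by positivity)
  rw [dist_comm, dist_zero_right] at hd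
  -- real lift
  obtain ⟨r, rfl⟩ := QuotientAddGroup.mk_surjective d
  set δ : ℝ := r - round r with hδ
  have hδr : (δ : UnitAddCircle) = (r : UnitAddCircle) := by
    rw [hδ, AddCircle.coe_sub, sub_eq_self]
    exact (AddCircle.coe_eq_zero_iff 1).2 ⟨round r, by simp⟩
  have hnorm : ‖(r : UnitAddCircle)‖ = |δ| := by
    rw [UnitAddCircle.norm_eq]
  have hδ0 : δ ≠ 0 := by
    intro h
    apply hd0
    show (r : UnitAddCircle) = 0
    rw [← hδr, h]; rfl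
  have hδpos : 0 < |δ| := abs_pos.2 hδ0
  have hδhalf : |δ| ≤ 1 / 2 := abs_sub_round r
  have hd' : |δ| < 1 / (2 * (Q : ℝ) ^ m) := by
    rw [← hnorm]; exact hd
  obtain ⟨n, hn1, hn2⟩ := exists_nat_pow_near (x := 1 / (2 * |δ|)) (y := (Q : ℝ))
    (by rw [le_div_iff₀ (by positivity)]; linarith) hQ1
  have hmn : m ≤ n := by
    have h1 : (Q : ℝ) ^ m < (Q : ℝ) ^ (n + 1) := by
      refine lt_trans ?_ hn2
      rw [lt_div_iff₀ (by positivity)] at hd' ⊢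
      linarith [hd']
    have := (pow_lt_pow_iff_right₀ hQ1).1 h1
    omega
  refine ⟨(Q : ℝ) ^ n * δ, ⟨?_, ?_⟩, ?_⟩
  · rw [abs_mul, abs_of_pos (by positivity), div_le_iff₀ (by positivity)]
    rw [div_lt_iff₀ (by positivity), pow_succ] at hn2
    nlinarith
  · rw [abs_mul, abs_of_pos (by positivity)]
    rw [le_div_iff₀ (by positivity)] at hn1
    linarith
  · refine hR.sub _ _ _ ?_
    have hmem := pow_smul_mem (hQ x) (n - m) _ hdZ
    have hmem' : Q ^ (n - m) • (r : UnitAddCircle) ∈ Z x := hmem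
    rw [← hδr, ← coe_pow_mul] at hmem'
    convert hmem' using 2
    have e : (Q : ℝ) ^ n = (Q : ℝ) ^ (n - m) * (Q : ℝ) ^ m := by
      rw [← pow_add, Nat.sub_add_cancel hmn]
    rw [e]
    field_simp

lemma phase_open (hR : RCS Z U) {Q P : ℕ} (hP2 : 2 ≤ P) (hQ2 : 2 ≤ Q)
    (hirr : Irrational (Real.log P / Real.log Q)) {θ : Ω → Ω}
    (hQ : ∀ x, ∀ y ∈ Z x, Q • y ∈ Z x) (hP : ∀ x, ∀ y ∈ Z x, P • y ∈ Z (θ x))
    [IsFiniteMeasure μ]
    (hμ : MeasurePreserving θ μ μ)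
    {V : Set UnitAddCircle} (hV : IsOpen V) (hne : V.Nonempty) :
    ∀ᵐ x ∂μ, (x, (1 : ℝ)) ∈ E U Q (Ann Q) → (Z x ∩ V).Nonempty := by
  have hQ0 : 0 < Q := by omega
  have hQr : (0 : ℝ) < Q := by positivity
  -- the open set of good scales
  set W' : Set ℝ := W Q V ∩ {0}ᶜ with hW'
  have hW'open : IsOpen W' := (isOpen_W Q hV).inter isOpen_compl_singleton
  have hW'null : volume W'ᶜ = 0 := by
    rw [hW', compl_inter, compl_compl]
    exact measure_union_null (W_null hQ2 hV hne) (by simp)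
  obtain ⟨K, hKc, hKm, hKU⟩ := exists_exhaustion hW'open
  set G : Set Ω := {x | (x, (1 : ℝ)) ∈ E U Q (Ann Q)} with hG
  have hGm : MeasurableSet G := measurableSet_sec hR Q _ 1
  -- Tonelli
  have hae1 : ∀ᵐ x ∂μ, ∀ᵐ c ∂(volume : Measure ℝ),
      (x ∈ G → 0 < c → ∃ j, (x, c) ∈ E U Q (K j)) := by
    refine Eventually.of_forall fun x => ?_
    by_cases hx : x ∈ G
    · have hx' : (x, (1 : ℝ)) ∈ E U Q (Ann Q) := hx
      rw [mem_E_iff hR hQ0 hQ (isCompact_Ann Q)] at hx'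
      obtain ⟨σ, hσA, hσ⟩ := hx'
      have hσ0 : σ ≠ 0 := by
        have h1 : 0 < |σ| := lt_of_lt_of_le (by positivity) hσA.1
        exact abs_pos.1 h1
      have hnull := scale_null hW'null σ
      have : ∀ᵐ c ∂(volume : Measure ℝ), ¬ (c ≠ 0 ∧ σ ≠ 0 ∧ σ / c ∈ W'ᶜ) := by
        rw [ae_iff]; simpa using hnull
      filter_upwards [this] with c hc _ hcpos
      have hcW : σ / c ∈ W' := by
        by_contra h
        exact hc ⟨hcpos.ne', hσ0, h⟩
      rw [← hKU, mem_iUnion] at hcW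
      obtain ⟨j, hj⟩ := hcW
      refine ⟨j, ?_⟩
      rw [mem_E_iff hR hQ0 hQ (hKc j)]
      refine ⟨σ / c, hj, fun m => ?_⟩
      have := hσ m
      convert this using 2
      field_simp
    · exact Eventually.of_forall fun c h => absurd h hx
  have hmeas : MeasurableSet {z : Ω × ℝ |
      (z.1 ∈ G → 0 < z.2 → ∃ j, (z.1, z.2) ∈ E U Q (K j))} := by
    have : {z : Ω × ℝ | (z.1 ∈ G → 0 < z.2 → ∃ j, (z.1, z.2) ∈ E U Q (K j))}
        = (Prod.fst ⁻¹' G)ᶜ ∪ ((Prod.snd ⁻¹' (Ioi 0))ᶜ ∪ ⋃ j, E U Q (K j)) := by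
      ext z
      simp only [mem_ofPred_eq, mem_union, mem_compl_iff, mem_preimage, mem_Ioi, mem_iUnion,
        Prod.mk.eta]
      tauto
    rw [this]
    exact (measurable_fst hGm).compl.union
      ((measurable_snd measurableSet_Ioi).compl.union
        (MeasurableSet.iUnion fun j => measurableSet_E hR Q (K j)))
  have hae2 := (Measure.ae_ae_comm (μ := μ) (ν := (volume : Measure ℝ)) hmeas).1 hae1
  have hae3 : ∀ᵐ c ∂(volume.restrict (Ioi (0 : ℝ))), ∀ᵐ x ∂μ,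
      (x ∈ G → ∃ j, (x, c) ∈ E U Q (K j)) := by
    have h1 := ae_restrict_of_ae (s := Ioi (0 : ℝ)) hae2
    have h2 := ae_restrict_mem (μ := (volume : Measure ℝ)) (measurableSet_Ioi (a := (0 : ℝ)))
    filter_upwards [h1, h2] with c hc hcpos
    filter_upwards [hc] with x hx hxG
    exact hx hxG hcpos
  obtain ⟨c, hc⟩ : ∃ c : ℝ, 0 < c ∧ ∀ᵐ x ∂μ, (x ∈ G → ∃ j, (x, c) ∈ E U Q (K j)) := by
    have hne' : (ae (volume.restrict (Ioi (0 : ℝ)))).NeBot := by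
      rw [ae_restrict_neBot]; simp
    have h2 := ae_restrict_mem (μ := (volume : Measure ℝ)) (measurableSet_Ioi (a := (0 : ℝ)))
    obtain ⟨c, hc1, hc2⟩ := (h2.and hae3).exists
    exact ⟨c, hc1, hc2⟩
  obtain ⟨hcpos, hcae⟩ := hc
  -- compare measures
  have hmono : ∀ d : ℝ, Monotone fun j => {x : Ω | (x, d) ∈ E U Q (K j)} := by
    intro d i j hij x hx
    exact E_mono U Q (hKm hij) hx
  set H : Set Ω := ⋃ j, {x | (x, (1 : ℝ)) ∈ E U Q (K j)} with hH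
  have hHm : MeasurableSet H := MeasurableSet.iUnion fun j => measurableSet_sec hR Q _ 1
  have hle : μ G ≤ μ H := by
    calc μ G ≤ μ (⋃ j, {x | (x, c) ∈ E U Q (K j)}) := by
          refine measure_mono_ae ?_
          filter_upwards [hcae] with x hx hxG
          obtain ⟨j, hj⟩ := hx hxG
          exact mem_iUnion.2 ⟨j, hj⟩
      _ = ⨆ j, μ {x | (x, c) ∈ E U Q (K j)} := (hmono c).measure_iUnion
      _ ≤ ⨆ j, μ {x | (x, (1 : ℝ)) ∈ E U Q (K j)} :=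
          iSup_mono fun j => g_const hR hP2 hQ2 hirr hQ hP hμ (hKc j) hcpos one_pos
      _ = μ H := ((hmono 1).measure_iUnion).symm
  have hHG : H ⊆ G := by
    intro x hx
    obtain ⟨j, hj⟩ := mem_iUnion.1 hx
    have hj' : (x, (1 : ℝ)) ∈ E U Q (K j) := hj
    rw [mem_E_iff hR hQ0 hQ (hKc j)] at hj'
    obtain ⟨s, hsK, hs⟩ := hj'
    have hsW : s ∈ W' := by rw [← hKU]; exact mem_iUnion.2 ⟨j, hsK⟩
    exact mem_Ann_of hR hQ2 hQ (s := s) hsW.2 (fun m => by simpa using hs m)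
  have hGH : H =ᵐ[μ] G :=
    ae_eq_of_subset_of_measure_ge hHG hle hHm.nullMeasurableSet (measure_ne_top _ _)
  filter_upwards [hGH.mem_iff] with x hx hxG
  have hxH : x ∈ H := hx.2 hxG
  obtain ⟨j, hj⟩ := mem_iUnion.1 hxH
  have hj' : (x, (1 : ℝ)) ∈ E U Q (K j) := hj
  rw [mem_E_iff hR hQ0 hQ (hKc j)] at hj'
  obtain ⟨s, hsK, hs⟩ := hj'
  have hsW : s ∈ W' := by rw [← hKU]; exact mem_iUnion.2 ⟨j, hsK⟩
  obtain ⟨m, hm⟩ := hsW.1
  refine ⟨Q ^ m • (s : UnitAddCircle), pow_smul_mem (hQ x) m _ ?_, hm⟩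
  simpa using hs 0

/-- **Phase lemma.** A stationary family of closed subsets of the circle, invariant under
multiplication by `Q` and equivariant under multiplication by `P`, consists almost surely of
the whole circle as soon as `0` is an accumulation point. -/
theorem phase (hR : RCS Z U) {Q P : ℕ} (hP2 : 2 ≤ P) (hQ2 : 2 ≤ Q)
    (hirr : Irrational (Real.log P / Real.log Q)) {θ : Ω → Ω}
    (hQ : ∀ x, ∀ y ∈ Z x, Q • y ∈ Z x) (hP : ∀ x, ∀ y ∈ Z x, P • y ∈ Z (θ x))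
    [IsFiniteMeasure μ]
    (hμ : MeasurePreserving θ μ μ) :
    ∀ᵐ x ∂μ, (0 : UnitAddCircle) ∈ closure (Z x \ {0}) → Z x = univ := by
  have hB := TopologicalSpace.isBasis_countableBasis UnitAddCircle
  have h1 : ∀ᵐ x ∂μ, ∀ V ∈ TopologicalSpace.countableBasis UnitAddCircle,
      (x, (1 : ℝ)) ∈ E U Q (Ann Q) → (Z x ∩ V).Nonempty := by
    rw [ae_ball_iff (TopologicalSpace.countable_countableBasis UnitAddCircle)]
    intro V hV
    exact phase_open hR hP2 hQ2 hirr hQ hP hμ (hB.isOpen hV)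
      (TopologicalSpace.nonempty_of_mem_countableBasis hV)
  filter_upwards [h1] with x hx hacc
  have hG := acc_mem_G hR hQ2 hQ hacc
  have hd : Dense (Z x) := by
    rw [hB.dense_iff]
    intro V hV _
    obtain ⟨y, hy1, hy2⟩ := hx V hV hG
    exact ⟨y, hy2, hy1⟩
  exact ((hR.isClosed x).closure_eq ▸ hd.closure_eq)

end Pool.Agent.H.MP_96e181_an.Rel
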