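import Pool.Agent.H.MP_96e181_an.rel.Phase
import Pool.Agent.H.MP_96e181_an.RandomFurstenberg

/-!
# A stationary version of Furstenberg's theorem on closed invariant sets, over an arbitrary base

Helper file for the problem MP_96e181_an.
-/

open MeasureTheory Filter Topology Set

namespace Pool.Agent.H.MP_96e181_an.Rel

variable {Ω : Type*} [MeasurableSpace Ω] {Z : Ω → Set UnitAddCircle}
  {U : ℕ → Set (Ω × UnitAddCircle)} {μ : Measure Ω} {θ : Ω → Ω}

lemma RCS.mem_iff (hR : RCS Z U) (x : Ω) (y : UnitAddCircle) : y ∈ Z x ↔ ∀ k, (x, y) ∈ U k :=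
  ⟨fun h k => hR.sub x y k h, fun h => hR.lim x (fun _ => y) y h tendsto_const_nhds⟩

/-- translates of an admissible family -/
lemma RCS.translate (hR : RCS Z U) (r : UnitAddCircle) :
    RCS (fun x => {y | y + r ∈ Z x}) (fun k => {z | (z.1, z.2 + r) ∈ U k}) where
  meas k := (measurable_fst.prodMk (measurable_snd.add_const r)) (hR.meas k)
  isOpen k x := (hR.isOpen k x).preimage (f := fun y : UnitAddCircle => y + r) (by fun_prop)
  anti := fun _ _ hij _ hz => hR.anti hij hz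
  sub := fun x y k hy => hR.sub x (y + r) k hy
  lim := fun x y y0 h hlim => hR.lim x (fun k => y k + r) (y0 + r) h (hlim.add_const r)

/-- points all of whose first `i` translates by multiples of `τ` lie in `Z x` -/
def XX {Ω : Type*} (Z : Ω → Set UnitAddCircle) (τ : UnitAddCircle) (i : ℕ) (x : Ω) :
    Set UnitAddCircle :=
  {y | ∀ l : ℕ, l ≤ i → y + l • τ ∈ Z x}

/-- differences -/
def DD {Ω : Type*} (Z : Ω → Set UnitAddCircle) (τ : UnitAddCircle) (i : ℕ) (x : Ω) :
    Set UnitAddCircle :=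
  {z | ∃ y ∈ XX Z τ i x, ∃ y' ∈ XX Z τ i x, z = y - y'}

lemma RCS.diff (hR : RCS Z U) (τ : UnitAddCircle) (i : ℕ) :
    RCS (DD Z τ i)
      (fun k => {z | ∃ y y' : UnitAddCircle, dist z.2 (y - y') < 1 / ((k : ℝ) + 1) ∧
        (∀ l : ℕ, l ≤ i → (z.1, y + l • τ) ∈ U k) ∧
        (∀ l : ℕ, l ≤ i → (z.1, y' + l • τ) ∈ U k)}) where
  meas k := by
    obtain ⟨S, hSc, hSd⟩ := TopologicalSpace.exists_countable_dense UnitAddCircle
    have hop : ∀ x : Ω, IsOpen {y : UnitAddCircle | ∀ l : ℕ, l ≤ i → (x, y + l • τ) ∈ U k} := by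
      intro x
      have : {y : UnitAddCircle | ∀ l : ℕ, l ≤ i → (x, y + l • τ) ∈ U k} =
          ⋂ l ∈ Finset.range (i + 1), {y | (x, y + l • τ) ∈ U k} := by
        ext z
        simp only [mem_ofPred_eq, mem_iInter, Finset.mem_range, Nat.lt_succ_iff]
      rw [this]
      refine isOpen_biInter_finset fun l _ => ?_
      exact (hR.isOpen k x).preimage (f := fun y : UnitAddCircle => y + l • τ) (by fun_prop)
    have hme : ∀ y : UnitAddCircle, MeasurableSet {z : Ω × UnitAddCircle |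
        ∀ l : ℕ, l ≤ i → (z.1, y + l • τ) ∈ U k} := by
      intro y
      have : {z : Ω × UnitAddCircle | ∀ l : ℕ, l ≤ i → (z.1, y + l • τ) ∈ U k} =
          ⋂ l ∈ Finset.range (i + 1), {z | (z.1, y + l • τ) ∈ U k} := by
        ext z
        simp only [mem_ofPred_eq, mem_iInter, Finset.mem_range, Nat.lt_succ_iff]
      rw [this]
      refine Finset.measurableSet_biInter _ fun l _ => ?_
      exact (measurable_fst.prodMk measurable_const) (hR.meas k)
    have : {z : Ω × UnitAddCircle | ∃ y y' : UnitAddCircle,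
        dist z.2 (y - y') < 1 / ((k : ℝ) + 1) ∧
        (∀ l : ℕ, l ≤ i → (z.1, y + l • τ) ∈ U k) ∧
        (∀ l : ℕ, l ≤ i → (z.1, y' + l • τ) ∈ U k)} =
        ⋃ y ∈ S, ⋃ y' ∈ S,
          ({z | dist z.2 (y - y') < 1 / ((k : ℝ) + 1)} ∩
          ({z | ∀ l : ℕ, l ≤ i → (z.1, y + l • τ) ∈ U k} ∩
          {z | ∀ l : ℕ, l ≤ i → (z.1, y' + l • τ) ∈ U k})) := by
      ext z
      simp only [mem_ofPred_eq, mem_iUnion, mem_inter_iff]
      constructor
      · rintro ⟨y, y', h1, h2, h3⟩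
        have ho : IsOpen {w : UnitAddCircle × UnitAddCircle |
            dist z.2 (w.1 - w.2) < 1 / ((k : ℝ) + 1) ∧
            (∀ l : ℕ, l ≤ i → (z.1, w.1 + l • τ) ∈ U k) ∧
            (∀ l : ℕ, l ≤ i → (z.1, w.2 + l • τ) ∈ U k)} := by
          refine IsOpen.and (isOpen_lt (by fun_prop) continuous_const) (IsOpen.and ?_ ?_)
          · exact (hop z.1).preimage continuous_fst
          · exact (hop z.1).preimage continuous_snd
        obtain ⟨⟨a, b⟩, hab, haS, hbS⟩ := (hSd.prod hSd).inter_open_nonempty _ ho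
          ⟨(y, y'), h1, h2, h3⟩
        exact ⟨a, haS, b, hbS, hab⟩
      · rintro ⟨y, _, y', _, h⟩
        exact ⟨y, y', h⟩
    rw [this]
    refine MeasurableSet.biUnion hSc fun y _ => MeasurableSet.biUnion hSc fun y' _ => ?_
    refine MeasurableSet.inter ?_ ((hme y).inter (hme y'))
    exact measurableSet_lt (measurable_snd.dist measurable_const) measurable_const
  isOpen k x := by
    refine isOpen_iff_mem_nhds.2 fun z hz => ?_
    obtain ⟨y, y', h1, h2, h3⟩ := hz
    have ho : IsOpen {w : UnitAddCircle | dist w (y - y') < 1 / ((k : ℝ) + 1)} :=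
      isOpen_lt (by fun_prop) continuous_const
    exact Filter.mem_of_superset (ho.mem_nhds h1) fun w hw => ⟨y, y', hw, h2, h3⟩
  anti := by
    intro a b hab z hz
    have hle : 1 / ((b : ℝ) + 1) ≤ 1 / ((a : ℝ) + 1) :=
      one_div_le_one_div_of_le (by positivity) (by
        have : (a : ℝ) ≤ b := by exact_mod_cast hab
        linarith)
    obtain ⟨y, y', h1, h2, h3⟩ := hz
    exact ⟨y, y', h1.trans_le hle, fun l hl => hR.anti hab (h2 l hl),
      fun l hl => hR.anti hab (h3 l hl)⟩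
  sub := by
    rintro x z k ⟨y, hy, y', hy', rfl⟩
    have hpos : (0 : ℝ) < 1 / ((k : ℝ) + 1) := by positivity
    exact ⟨y, y', by simpa using hpos, fun l hl => hR.sub _ _ _ (hy l hl),
      fun l hl => hR.sub _ _ _ (hy' l hl)⟩
  lim := by
    intro x z z0 h hlim
    choose y y' h1 h2 h3 using h
    obtain ⟨a, -, φ, hφ, ha⟩ := (isCompact_univ (X := UnitAddCircle × UnitAddCircle)).tendsto_subseq
      (x := fun k => (y k, y' k)) (fun _ => mem_univ _)
    have ha1 : Tendsto (fun k => y (φ k)) atTop (𝓝 a.1) :=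
      (continuous_fst.tendsto a).comp ha
    have ha2 : Tendsto (fun k => y' (φ k)) atTop (𝓝 a.2) :=
      (continuous_snd.tendsto a).comp ha
    have hε : Tendsto (fun k => 1 / ((φ k : ℝ) + 1)) atTop (𝓝 0) :=
      tendsto_one_div_add_atTop_nhds_zero_nat.comp hφ.tendsto_atTop
    refine ⟨a.1, fun l hl => ?_, a.2, fun l hl => ?_, ?_⟩
    · exact hR.lim_subseq (y := fun k => y k + l • τ) (fun k => h2 k l hl) hφ (ha1.add_const _)
    · exact hR.lim_subseq (y := fun k => y' k + l • τ) (fun k => h3 k l hl) hφ (ha2.add_const _)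
    · have hz : Tendsto (fun k => z (φ k)) atTop (𝓝 z0) := hlim.comp hφ.tendsto_atTop
      have hz2 : Tendsto (fun k => y (φ k) - y' (φ k)) atTop (𝓝 (a.1 - a.2)) := ha1.sub ha2
      have hd : Tendsto (fun k => dist (z (φ k)) (y (φ k) - y' (φ k))) atTop (𝓝 0) :=
        squeeze_zero (fun _ => dist_nonneg) (fun k => (h1 (φ k)).le) hε
      have hd2 := hz.dist hz2
      have := tendsto_nhds_unique hd2 hd
      exact dist_eq_zero.1 this

lemma XX_Q {Q : ℕ} (hQ : ∀ x, ∀ y ∈ Z x, Q • y ∈ Z x) {τ : UnitAddCircle} (hτ : Q • τ = τ)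
    (i : ℕ) (x : Ω) : ∀ y ∈ XX Z τ i x, Q • y ∈ XX Z τ i x := by
  intro y hy l hl
  have := hQ x _ (hy l hl)
  rwa [smul_add, ← mul_smul, mul_comm, mul_smul, hτ] at this

lemma XX_P {P : ℕ} (hP : ∀ x, ∀ y ∈ Z x, P • y ∈ Z (θ x)) {τ : UnitAddCircle}
    (hτ : P • τ = τ) (i : ℕ) (x : Ω) :
    ∀ y ∈ XX Z τ i x, P • y ∈ XX Z τ i (θ x) := by
  intro y hy l hl
  have := hP x _ (hy l hl)
  rwa [smul_add, ← mul_smul, mul_comm, mul_smul, hτ] at this

lemma isClosed_XX (hR : RCS Z U) (τ : UnitAddCircle) (i : ℕ) (x : Ω) :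
    IsClosed (XX Z τ i x) := by
  have : XX Z τ i x = ⋂ l : ℕ, ⋂ _ : l ≤ i, (fun y => y + l • τ) ⁻¹' (Z x) := by
    ext y; simp [XX]
  rw [this]
  refine isClosed_iInter fun l => isClosed_iInter fun _ => (hR.isClosed x).preimage ?_
  fun_prop

lemma DD_acc {Q : ℕ} (hQ2 : 2 ≤ Q) (hQ : ∀ x, ∀ y ∈ Z x, Q • y ∈ Z x) {τ : UnitAddCircle}
    (hτ : Q • τ = τ) {i : ℕ} {x : Ω} {y : UnitAddCircle} (hy : y ∈ XX Z τ i x)
    (ht : ∀ n : ℕ, 0 < n → n • y ≠ 0) :
    (0 : UnitAddCircle) ∈ closure (DD Z τ i x \ {0}) := by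
  have hinj := pow_smul_injective hQ2 ht
  have hmem : ∀ n : ℕ, Q ^ n • y ∈ XX Z τ i x := fun n =>
    pow_smul_mem (XX_Q hQ hτ i x) n y hy
  obtain ⟨a, -, φ, hφ, ha⟩ := (isCompact_univ (X := UnitAddCircle)).tendsto_subseq
      (x := fun n => Q ^ n • y) (fun _ => mem_univ _)
  have h1 : Tendsto (fun k => Q ^ (φ (k + 1)) • y - Q ^ (φ k) • y) atTop
      (𝓝 (a - a)) := (ha.comp (tendsto_add_atTop_nat 1)).sub ha
  rw [sub_self] at h1
  refine mem_closure_of_tendsto h1 (Eventually.of_forall fun k => ⟨?_, ?_⟩)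
  · exact ⟨_, hmem _, _, hmem _, rfl⟩
  · simp only [mem_singleton_iff, sub_eq_zero]
    intro h
    have := hφ.injective (hinj h)
    omega

/-- fixed torsion accumulation point -/
lemma rf_fixed (hR : RCS Z U) [IsFiniteMeasure μ] {P Q : ℕ} (hP2 : 2 ≤ P) (hQ2 : 2 ≤ Q)
    (h : Irrational (Real.log P / Real.log Q))
    (hμ : MeasurePreserving θ μ μ)
    (hQ : ∀ x, ∀ y ∈ Z x, Q • y ∈ Z x) (hP : ∀ x, ∀ y ∈ Z x, P • y ∈ Z (θ x))
    {f : UnitAddCircle} (hPf : P • f = f) (hQf : Q • f = f) :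
    ∀ᵐ x ∂μ, f ∈ closure (Z x \ {f}) → Z x = univ := by
  have hph := phase (hR.translate f) hP2 hQ2 h
    (by
      intro x y hy
      show Q • y + f ∈ Z x
      have := hQ x _ hy
      rwa [smul_add, hQf] at this)
    (by
      intro x y hy
      show P • y + f ∈ Z (θ x)
      have := hP x _ hy
      rwa [smul_add, hPf] at this)
    hμ
  filter_upwards [hph] with x hx hf
  have hacc : (0 : UnitAddCircle) ∈ closure ({y | y + f ∈ Z x} \ {0}) := by
    obtain ⟨u, hu, hlim⟩ := mem_closure_iff_seq_limit.1 hf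
    have h1 : Tendsto (fun k => u k - f) atTop (𝓝 0) := by
      have := hlim.sub_const f
      rwa [sub_self] at this
    refine mem_closure_of_tendsto h1 (Eventually.of_forall fun k => ⟨?_, ?_⟩)
    · show u k - f + f ∈ Z x
      rw [sub_add_cancel]
      exact (hu k).1
    · simp only [mem_singleton_iff, sub_eq_zero]
      exact (hu k).2
  have hZ := hx hacc
  ext y
  simp only [mem_univ, iff_true]
  have : y - f ∈ {y | y + f ∈ Z x} := by rw [hZ]; trivial
  simpa using this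

lemma measurableSet_univ_event (hR : RCS Z U) : MeasurableSet {x | Z x = univ} := by
  obtain ⟨S, hSc, hSd⟩ := TopologicalSpace.exists_countable_dense UnitAddCircle
  have : {x | Z x = univ} = ⋂ y ∈ S, ⋂ k : ℕ, {x | (x, y) ∈ U k} := by
    ext x
    simp only [mem_ofPred_eq, mem_iInter]
    constructor
    · intro h y _ k
      exact hR.sub x y k (by rw [h]; trivial)
    · intro h
      have hsub : S ⊆ Z x := fun y hy => (hR.mem_iff x y).2 (h y hy)
      have hd : Dense (Z x) := hSd.mono hsub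
      exact (hR.isClosed x).closure_eq ▸ hd.closure_eq
  rw [this]
  refine MeasurableSet.biInter hSc fun y _ => MeasurableSet.iInter fun k => ?_
  exact measurable_prodMk_right (hR.meas k)

/-- pulling back the event that the random set is everything -/
lemma univ_event_pullback (hR : RCS Z U) [IsFiniteMeasure μ] {P : ℕ} (hP0 : 0 < P)
    (hμ : MeasurePreserving θ μ μ)
    (hP : ∀ x, ∀ y ∈ Z x, P • y ∈ Z (θ x)) :
    ∀ᵐ x ∂μ, Z (θ x) = univ → Z x = univ := by
  set B : Set Ω := {x | Z x = univ} with hB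
  have hBm : MeasurableSet B := measurableSet_univ_event hR
  have hsub : B ⊆ θ ⁻¹' B := by
    intro x hx
    show Z (θ x) = univ
    have hx' : Z x = univ := hx
    ext z
    simp only [mem_univ, iff_true]
    -- every z is P times something
    obtain ⟨r, rfl⟩ := QuotientAddGroup.mk_surjective z
    have hPr : (P : ℝ) ≠ 0 := by positivity
    have h1 : ((r / P : ℝ) : UnitAddCircle) ∈ Z x := by rw [hx']; trivial
    have h2 := hP x _ h1
    rw [← coe_nat_mul, mul_div_cancel₀ _ hPr] at h2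
    exact h2
  have hle : μ (θ ⁻¹' B) ≤ μ B :=
    (hμ.measure_preimage hBm.nullMeasurableSet).le
  have hae : B =ᵐ[μ] θ ⁻¹' B :=
    ae_eq_of_subset_of_measure_ge hsub hle hBm.nullMeasurableSet (measure_ne_top _ _)
  filter_upwards [hae.mem_iff] with x hx h
  exact hx.2 h

/-- torsion accumulation point -/
lemma rf_torsion (hR : RCS Z U) [IsFiniteMeasure μ] {p q : ℕ} (hp : 2 ≤ p) (hq : 2 ≤ q)
    (h : Irrational (Real.log p / Real.log q))
    (hμ : MeasurePreserving θ μ μ)
    (hQ : ∀ x, ∀ y ∈ Z x, q • y ∈ Z x) (hP : ∀ x, ∀ y ∈ Z x, p • y ∈ Z (θ x))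
    {f : UnitAddCircle} {b : ℕ} (hb : 0 < b) (hf : b • f = 0) :
    ∀ᵐ x ∂μ, f ∈ closure (Z x \ {f}) → Z x = univ := by
  obtain ⟨a₂, d₂, hd₂, h₂⟩ := exists_period hb hf q
  have hf2 : b • (q ^ a₂ • f) = 0 := by
    rw [← mul_smul, mul_comm, mul_smul, hf, smul_zero]
  obtain ⟨a₁, d₁, hd₁, h₁⟩ := exists_period hb hf2 p
  set f' : UnitAddCircle := p ^ a₁ • (q ^ a₂ • f) with hf'
  have hpf : p ^ (d₁ * d₂) • f' = f' := iterate_fixed h₁ d₂
  have hqf : q ^ (d₁ * d₂) • f' = f' := by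
    rw [mul_comm]
    refine iterate_fixed ?_ d₁
    rw [hf', ← mul_smul, mul_comm, mul_smul, h₂]
  have hu : d₁ * d₂ ≠ 0 := mul_ne_zero hd₁ hd₂
  have hPpow : ∀ n : ℕ, ∀ x, ∀ y ∈ Z x, p ^ n • y ∈ Z (θ^[n] x) := by
    intro n
    induction n with
    | zero => intro x y hy; simpa using hy
    | succ n ih =>
      intro x y hy
      have := hP _ _ (ih x y hy)
      rwa [← mul_smul, ← pow_succ', ← Function.iterate_succ_apply' θ] at this
  have hQpow : ∀ n : ℕ, ∀ x, ∀ y ∈ Z x, q ^ n • y ∈ Z x := fun n x => pow_smul_mem (hQ x) n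
  have hfix := rf_fixed hR (hp.trans (Nat.le_self_pow hu p)) (hq.trans (Nat.le_self_pow hu q))
    (irr_pow h hu) (hμ.iterate _) (hQpow _) (hPpow _) hpf hqf
  have hfix' := (hμ.iterate a₁).quasiMeasurePreserving.ae hfix
  have hpb := univ_event_pullback hR (P := p ^ a₁) (by positivity) (hμ.iterate a₁) (hPpow a₁)
  filter_upwards [hfix', hpb] with x hx hx2 hacc
  apply hx2
  apply hx
  have h1 : q ^ a₂ • f ∈ closure (Z x \ {q ^ a₂ • f}) :=
    acc_smul (by positivity) hacc (hQpow a₂ x)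
  exact acc_smul (by positivity) h1 (hPpow a₁ x)

/-- one step of the induction producing arithmetic progressions -/
lemma rf_step (hR : RCS Z U) {τ : UnitAddCircle} {i : ℕ} {x : Ω}
    (hDD : DD Z τ i x = univ) {b : ℕ} (hb : 0 < b) (hτ : b • τ = 0)
    (hN : ∀ f : UnitAddCircle, (∃ c : ℕ, 0 < c ∧ c • f = 0) → f ∉ closure (Z x \ {f})) :
    ∃ y ∈ XX Z τ (i + 1) x, ∀ n : ℕ, 0 < n → n • y ≠ 0 := by
  -- a sequence converging to τ and different from τ
  have hβ : ∀ k : ℕ, ∃ β : UnitAddCircle, β ≠ τ ∧ dist β τ < 1 / ((k : ℝ) + 1) := by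
    intro k
    have hnorm : ‖((1 / (2 * ((k : ℝ) + 1)) : ℝ) : UnitAddCircle)‖ = 1 / (2 * ((k : ℝ) + 1)) := by
      have hk : (0 : ℝ) < 1 / (2 * ((k : ℝ) + 1)) := by positivity
      rw [(AddCircle.norm_coe_eq_abs_iff 1 one_ne_zero).2, abs_of_pos hk]
      rw [abs_of_pos hk, abs_one]
      refine one_div_le_one_div_of_le (by norm_num) ?_
      have : (0 : ℝ) ≤ k := Nat.cast_nonneg k
      linarith
    have hk : (0 : ℝ) < 1 / (2 * ((k : ℝ) + 1)) := by positivity
    refine ⟨((1 / (2 * ((k : ℝ) + 1)) : ℝ) : UnitAddCircle) + τ, ?_, ?_⟩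
    · intro h0
      rw [add_eq_right] at h0
      rw [h0, norm_zero] at hnorm
      linarith
    · rw [dist_eq_norm, add_sub_cancel_right, hnorm]
      refine one_div_lt_one_div_of_lt (by positivity) ?_
      have : (0 : ℝ) ≤ k := Nat.cast_nonneg k
      linarith
  choose β hβne hβd using hβ
  have hmem : ∀ k, ∃ y ∈ XX Z τ i x, ∃ y' ∈ XX Z τ i x, β k = y - y' := by
    intro k
    have : β k ∈ DD Z τ i x := by rw [hDD]; trivial
    exact this
  choose y hy y' hy' hyy using hmem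
  obtain ⟨a, -, φ, hφ, ha⟩ := (isCompact_univ (X := UnitAddCircle × UnitAddCircle)).tendsto_subseq
      (x := fun k => (y k, y' k)) (fun _ => mem_univ _)
  have ha1 : Tendsto (fun k => y (φ k)) atTop (𝓝 a.1) := (continuous_fst.tendsto a).comp ha
  have ha2 : Tendsto (fun k => y' (φ k)) atTop (𝓝 a.2) := (continuous_snd.tendsto a).comp ha
  have hβlim : Tendsto β atTop (𝓝 τ) := by
    rw [tendsto_iff_dist_tendsto_zero]
    exact squeeze_zero (fun _ => dist_nonneg) (fun k => (hβd k).le)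
      tendsto_one_div_add_atTop_nhds_zero_nat
  have hsub : a.1 - a.2 = τ := by
    refine tendsto_nhds_unique (ha1.sub ha2) ?_
    refine (hβlim.comp hφ.tendsto_atTop).congr fun k => ?_
    simp only [Function.comp]
    exact hyy (φ k)
  have haX1 : a.1 ∈ XX Z τ i x := (isClosed_XX hR τ i x).mem_of_tendsto ha1
    (Eventually.of_forall fun k => hy (φ k))
  have haX2 : a.2 ∈ XX Z τ i x := (isClosed_XX hR τ i x).mem_of_tendsto ha2
    (Eventually.of_forall fun k => hy' (φ k))
  refine ⟨a.2, fun l hl => ?_, ?_⟩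
  · rcases Nat.lt_or_ge l (i + 1) with hl' | hl'
    · exact haX2 l (by omega)
    · obtain rfl : l = i + 1 := by omega
      have h1 := haX1 i le_rfl
      have h2 : a.1 = a.2 + τ := by rw [← hsub]; abel
      rw [h2] at h1
      convert h1 using 1
      rw [add_smul, one_smul]
      abel
  · -- a.2 is not torsion
    intro n hn htor
    have hXZ : ∀ w ∈ XX Z τ i x, w ∈ Z x := fun w hw => by simpa using hw 0 (Nat.zero_le _)
    have key : ∀ (w : ℕ → UnitAddCircle) (c : UnitAddCircle), (∃ m : ℕ, 0 < m ∧ m • c = 0) →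
        (∀ k, w k ∈ Z x) → Tendsto w atTop (𝓝 c) → ∀ᶠ k in atTop, w k = c := by
      intro w c hc hw hlim
      by_contra hne
      rw [not_eventually] at hne
      apply hN c hc
      rw [mem_closure_iff_frequently]
      exact hlim.frequently (hne.mono fun k hk => ⟨hw k, hk⟩)
    have htor1 : ∃ m : ℕ, 0 < m ∧ m • a.1 = 0 := by
      refine ⟨n * b, by positivity, ?_⟩
      have h2 : a.1 = a.2 + τ := by rw [← hsub]; abel
      have e1 : (n * b) • a.2 = 0 := by rw [mul_comm, mul_smul, htor, smul_zero]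
      have e2 : (n * b) • τ = 0 := by rw [mul_smul, hτ, smul_zero]
      rw [h2, smul_add, e1, e2, add_zero]
    have e1 := key (fun k => y (φ k)) a.1 htor1 (fun k => hXZ _ (hy (φ k))) ha1
    have e2 := key (fun k => y' (φ k)) a.2 ⟨n, hn, htor⟩ (fun k => hXZ _ (hy' (φ k))) ha2
    obtain ⟨k, hk1, hk2⟩ := (e1.and e2).exists
    apply hβne (φ k)
    rw [hyy (φ k), hk1, hk2, hsub]

/-- **Random Furstenberg theorem.** Let `Z x` be a measurable family of closed subsets of the
circle, invariant under `q` and equivariant under `p`. Almost surely, `Z x` consists of torsion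
points or is the whole circle. -/
theorem random_furstenberg (hR : RCS Z U) [IsFiniteMeasure μ] {p q : ℕ} (hp : 2 ≤ p)
    (hq : 2 ≤ q) (h : Irrational (Real.log p / Real.log q))
    (hμ : MeasurePreserving θ μ μ)
    (hQ : ∀ x, ∀ y ∈ Z x, q • y ∈ Z x) (hP : ∀ x, ∀ y ∈ Z x, p • y ∈ Z (θ x)) :
    ∀ᵐ x ∂μ, (∃ y ∈ Z x, ∀ n : ℕ, 0 < n → n • y ≠ 0) → Z x = univ := by
  have hPpow : ∀ n : ℕ, ∀ x, ∀ y ∈ Z x, p ^ n • y ∈ Z (θ^[n] x) := by
    intro n
    induction n with
    | zero => intro x y hy; simpa using hy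
    | succ n ih =>
      intro x y hy
      have := hP _ _ (ih x y hy)
      rwa [← mul_smul, ← pow_succ', ← Function.iterate_succ_apply' θ] at this
  have hQpow : ∀ n : ℕ, ∀ x, ∀ y ∈ Z x, q ^ n • y ∈ Z x := fun n x => pow_smul_mem (hQ x) n
  have hcount : {r : UnitAddCircle | ∃ b : ℕ, 0 < b ∧ b • r = 0}.Countable := by
    have : {r : UnitAddCircle | ∃ b : ℕ, 0 < b ∧ b • r = 0} =
        ⋃ b : ℕ, ⋃ _ : 0 < b, {r : UnitAddCircle | b • r = 0} := by
      ext r; simp
    rw [this]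
    exact countable_iUnion fun b => countable_iUnion fun hb =>
      (AddCircle.finite_torsion 1 hb).countable
  have h1 : ∀ᵐ x ∂μ, ∀ r ∈ {r : UnitAddCircle | ∃ b : ℕ, 0 < b ∧ b • r = 0},
      r ∈ closure (Z x \ {r}) → Z x = univ := by
    rw [ae_ball_iff hcount]
    rintro r ⟨b, hb, hr⟩
    exact rf_torsion hR hp hq h hμ hQ hP hb hr
  have h2 : ∀ᵐ x ∂μ, ∀ k i : ℕ, (0 : UnitAddCircle) ∈
      closure (DD Z (((1 / ((p * q * (k + 1) + 1 : ℕ) : ℝ) : ℝ)) : UnitAddCircle) i x \ {0}) →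
      DD Z (((1 / ((p * q * (k + 1) + 1 : ℕ) : ℝ) : ℝ)) : UnitAddCircle) i x = univ := by
    rw [ae_all_iff]
    intro k
    rw [ae_all_iff]
    intro i
    set t : ℕ := p * q * (k + 1) + 1 with ht
    have htpos : 0 < t := by omega
    have hcp : Nat.Coprime p t := by
      rw [ht, mul_assoc]
      exact (Nat.coprime_mul_left_add_right p 1 (q * (k + 1))).2 (Nat.coprime_one_right p)
    have hcq : Nat.Coprime q t := by
      rw [ht, mul_comm p q, mul_assoc]
      exact (Nat.coprime_mul_left_add_right q 1 (p * (k + 1))).2 (Nat.coprime_one_right q)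
    have hu : Nat.totient t ≠ 0 := (Nat.totient_pos.2 htpos).ne'
    have hpτ := tau_fixed htpos (Nat.ModEq.pow_totient hcp) (Nat.one_le_pow _ _ (by omega))
    have hqτ := tau_fixed htpos (Nat.ModEq.pow_totient hcq) (Nat.one_le_pow _ _ (by omega))
    refine phase (hR.diff _ i) (hp.trans (Nat.le_self_pow hu p)) (hq.trans (Nat.le_self_pow hu q))
      (irr_pow h hu) ?_ ?_ (hμ.iterate (Nat.totient t))
    · rintro x _ ⟨y, hy, y', hy', rfl⟩
      exact ⟨_, XX_Q (hQpow _) hqτ i x y hy, _, XX_Q (hQpow _) hqτ i x y' hy', by rw [smul_sub]⟩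
    · rintro x _ ⟨y, hy, y', hy', rfl⟩
      exact ⟨_, XX_P (hPpow _) hpτ i x y hy, _, XX_P (hPpow _) hpτ i x y' hy', by rw [smul_sub]⟩
  filter_upwards [h1, h2] with x hx1 hx2 hex
  by_cases hN : ∀ f : UnitAddCircle, (∃ c : ℕ, 0 < c ∧ c • f = 0) → f ∉ closure (Z x \ {f})
  · have hd : Dense (Z x) := by
      intro z
      rw [Metric.mem_closure_iff]
      intro ε hε
      obtain ⟨k, hk⟩ := exists_nat_one_div_lt hε
      set t : ℕ := p * q * (k + 1) + 1 with htdef
      have htpos : 0 < t := by omega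
      set τ : UnitAddCircle := ((1 / (t : ℝ) : ℝ) : UnitAddCircle) with hτdef
      have hcq : Nat.Coprime q t := by
        rw [htdef, mul_comm p q, mul_assoc]
        exact (Nat.coprime_mul_left_add_right q 1 (p * (k + 1))).2 (Nat.coprime_one_right q)
      have hu : Nat.totient t ≠ 0 := (Nat.totient_pos.2 htpos).ne'
      have hqτ : q ^ Nat.totient t • τ = τ :=
        tau_fixed htpos (Nat.ModEq.pow_totient hcq) (Nat.one_le_pow _ _ (by omega))
      have hτ0 : t • τ = 0 := by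
        rw [hτdef, ← AddCircle.coe_nsmul, nsmul_eq_mul, mul_one_div_cancel (by positivity)]
        exact AddCircle.coe_period 1
      have hind : ∀ i : ℕ, ∃ y ∈ XX Z τ i x, ∀ n : ℕ, 0 < n → n • y ≠ 0 := by
        intro i
        induction i with
        | zero =>
          obtain ⟨y, hy, hyt⟩ := hex
          refine ⟨y, fun l hl => ?_, hyt⟩
          obtain rfl : l = 0 := by omega
          simpa using hy
        | succ i ih =>
          obtain ⟨y, hy, hyt⟩ := ih
          have hacc := DD_acc (hq.trans (Nat.le_self_pow hu q)) (hQpow _) hqτ hy hyt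
          exact rf_step hR (hx2 k i hacc) htpos hτ0 hN
      obtain ⟨y, hy, -⟩ := hind (t - 1)
      obtain ⟨l, hl, hdist⟩ := dense_progression htpos y z
      refine ⟨_, hy l hl, hdist.trans_lt (lt_of_le_of_lt ?_ hk)⟩
      have hpq : 1 ≤ p * q := Nat.one_le_iff_ne_zero.2 (by positivity)
      refine one_div_le_one_div_of_le (by positivity) ?_
      have : k + 1 ≤ t := by nlinarith
      exact_mod_cast this
    exact (hR.isClosed x).closure_eq ▸ hd.closure_eq
  · push Not at hN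
    obtain ⟨f, ⟨c, hc, hcf⟩, hacc⟩ := hN
    exact hx1 f ⟨c, hc, hcf⟩ hacc

end Pool.Agent.H.MP_96e181_an.Rel
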